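import Pool.Agent.Helper32_NJ.Stmts

/-!
# Module GEN of squad NJ (MP_ba5221_nt)

If infinitely many fibres have only points killed by 2, so has the generic fibre.
-/

set_option autoImplicit false

namespace Pool.Agent.NJ.H24

open Polynomial Pool.Agent.NJ

theorem gen_thm : GENStmt := by
  intro E hΔ hinf X Y heq
  by_contra hne
  obtain ⟨x, d₁, hd₁, hX⟩ := IsFractionRing.div_surjective (A := ℚ[X]) X
  obtain ⟨y, d₂, hd₂, hY⟩ := IsFractionRing.div_surjective (A := ℚ[X]) Y
  have hd₁0 : d₁ ≠ 0 := nonZeroDivisors.ne_zero hd₁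
  have hd₂0 : d₂ ≠ 0 := nonZeroDivisors.ne_zero hd₂
  set f := algebraMap ℚ[X] (RatFunc ℚ) with hf
  have hinj : Function.Injective f := IsFractionRing.injective ℚ[X] (RatFunc ℚ)
  have hfd₁ : f d₁ ≠ 0 := by
    intro h
    exact hd₁0 (hinj (by rw [h, map_zero]))
  have hfd₂ : f d₂ ≠ 0 := by
    intro h
    exact hd₂0 (hinj (by rw [h, map_zero]))
  -- common denominator
  set d := d₁ * d₂ with hd
  set n₁ := x * d₂ with hn₁
  set n₂ := y * d₁ with hn₂
  have hd0 : d ≠ 0 := mul_ne_zero hd₁0 hd₂0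
  have hfd : f d ≠ 0 := by
    rw [hd, map_mul]; exact mul_ne_zero hfd₁ hfd₂
  have hX' : X = f n₁ / f d := by
    rw [← hX, hn₁, hd, map_mul, map_mul]; field_simp
  have hY' : Y = f n₂ / f d := by
    rw [← hY, hn₂, hd, map_mul, map_mul]; field_simp
  have hE : n₂ ^ 2 * d + E.a₁ * n₁ * n₂ * d + E.a₃ * n₂ * d ^ 2
      = n₁ ^ 3 + E.a₂ * n₁ ^ 2 * d + E.a₄ * n₁ * d ^ 2 + E.a₆ * d ^ 3 := by
    apply hinj
    have h := (WeierstrassCurve.Affine.equation_iff _ _).1 heq
    simp only [gen, WeierstrassCurve.toAffine, WeierstrassCurve.map_a₁, WeierstrassCurve.map_a₂, WeierstrassCurve.map_a₃,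
      WeierstrassCurve.map_a₄, WeierstrassCurve.map_a₆, ← hf] at h
    rw [hX', hY'] at h
    simp only [map_add, map_mul, map_pow]
    field_simp at h
    linear_combination h
  set w := 2 * n₂ + E.a₁ * n₁ + E.a₃ * d with hw
  have hw0 : w ≠ 0 := by
    intro h0
    apply hne
    have : f w = 0 := by rw [h0, map_zero]
    rw [hw] at this
    simp only [map_add, map_mul, map_ofNat] at this
    simp only [gen, WeierstrassCurve.map_a₁, WeierstrassCurve.map_a₃, ← hf]
    rw [hX', hY']
    field_simp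
    linear_combination this
  have hfin : {t : ℚ | (d * w).IsRoot t}.Finite := by
    have := (d * w).roots.toFinset.finite_toSet
    refine this.subset ?_
    intro t ht
    simp only [Finset.mem_coe, Multiset.mem_toFinset]
    exact (mem_roots (mul_ne_zero hd0 hw0)).2 ht
  obtain ⟨t, ht, htr⟩ := (hinf.sdiff hfin).nonempty
  have htr' : (d * w).eval t ≠ 0 := fun h => htr h
  rw [eval_mul] at htr'
  have hdt : d.eval t ≠ 0 := left_ne_zero_of_mul htr'
  have hwt : w.eval t ≠ 0 := right_ne_zero_of_mul htr'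
  have hE' := congrArg (eval t) hE
  simp only [eval_add, eval_mul, eval_pow] at hE'
  have key := ht.2 (n₁.eval t / d.eval t) (n₂.eval t / d.eval t) (by
    rw [WeierstrassCurve.Affine.equation_iff]
    simp only [fib, WeierstrassCurve.toAffine, WeierstrassCurve.map_a₁, WeierstrassCurve.map_a₂, WeierstrassCurve.map_a₃,
      WeierstrassCurve.map_a₄, WeierstrassCurve.map_a₆, coe_evalRingHom]
    field_simp
    linear_combination hE')
  apply hwt
  simp only [fib, WeierstrassCurve.map_a₁, WeierstrassCurve.map_a₃, coe_evalRingHom] at key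
  field_simp at key
  rw [hw]
  simp only [eval_add, eval_mul, eval_ofNat]
  linear_combination key

end Pool.Agent.NJ.H24
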