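import Pool.Agent.Helper32_NJ.Stmts

/-!
# Module NIS of squad NJ (MP_ba5221_nt)
-/

set_option autoImplicit false

namespace Pool.Agent.NJ.H24

open Polynomial Pool.Agent.NJ

/-- The discriminant in terms of the roots of the 2-division polynomial. -/
theorem disc_roots {F : Type} [Field F] [CharZero F] (W : WeierstrassCurve F) (e₁ e₂ e₃ : F)
    (h : Roots W e₁ e₂ e₃) :
    W.Δ = 16 * ((e₁ - e₂) * (e₂ - e₃) * (e₃ - e₁)) ^ 2 := by
  obtain ⟨h2, h4, h6⟩ := h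
  have h8 := W.b_relation
  have : 4 * W.Δ = 4 * (16 * ((e₁ - e₂) * (e₂ - e₃) * (e₃ - e₁)) ^ 2) := by
    rw [WeierstrassCurve.Δ]
    have e : 4 * (-W.b₂ ^ 2 * W.b₈ - 8 * W.b₄ ^ 3 - 27 * W.b₆ ^ 2 + 9 * W.b₂ * W.b₄ * W.b₆)
      = -W.b₂ ^ 2 * (4 * W.b₈) - 32 * W.b₄ ^ 3 - 108 * W.b₆ ^ 2 + 36 * W.b₂ * W.b₄ * W.b₆ := by
      ring
    rw [e, h8, h2, h4, h6]
    ring
  exact mul_left_cancel₀ (by norm_num) this

/-- `c₄` in terms of the roots of the 2-division polynomial. -/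
theorem c4_roots {F : Type} [Field F] (W : WeierstrassCurve F) (e₁ e₂ e₃ : F)
    (h : Roots W e₁ e₂ e₃) :
    W.c₄ = 8 * ((e₁ - e₂) ^ 2 + (e₂ - e₃) ^ 2 + (e₃ - e₁) ^ 2) := by
  obtain ⟨h2, h4, h6⟩ := h
  rw [WeierstrassCurve.c₄, h2, h4]
  ring

theorem nis : NISStmt := by
  intro E hΔ hni e₁ e₂ e₃ u δ x y z hR hD hxy
  obtain ⟨hx, hy⟩ := hxy
  set f := algebraMap ℚ[X] (RatFunc ℚ) with hf
  have hinj : Function.Injective f := IsFractionRing.injective ℚ[X] (RatFunc ℚ)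
  obtain ⟨a, ha⟩ : ∃ a : ℚ, x = C a := ⟨_, eq_C_of_natDegree_eq_zero hx⟩
  obtain ⟨b, hb⟩ : ∃ b : ℚ, y = C b := ⟨_, eq_C_of_natDegree_eq_zero hy⟩
  have hc : z = C (-(a + b)) := by
    have := hD.sum
    rw [ha, hb] at this
    rw [C_neg, C_add]
    linear_combination this
  have ha0 : a ≠ 0 := by
    rintro rfl
    exact hD.x0 (by rw [ha, C_0])
  have hb0 : b ≠ 0 := by
    rintro rfl
    exact hD.y0 (by rw [hb, C_0])
  have hc0 : a + b ≠ 0 := by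
    intro h
    exact hD.z0 (by rw [hc, h, neg_zero, C_0])
  set c : ℚ := 32 * (a ^ 2 + b ^ 2 + (a + b) ^ 2) ^ 3 / (a * b * (a + b)) ^ 2 with hcdef
  have hcc : c * (a * b * (a + b)) ^ 2 = 32 * (a ^ 2 + b ^ 2 + (a + b) ^ 2) ^ 3 := by
    rw [hcdef]; field_simp
  apply hni c
  apply hinj
  have h4 := c4_roots _ _ _ _ hR
  have hΔ' := disc_roots _ _ _ _ hR
  rw [hD.h12, hD.h23, hD.h31, ← hf] at h4 hΔ'
  simp only [gen, WeierstrassCurve.map_c₄, WeierstrassCurve.map_Δ, ← hf] at h4 hΔ'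
  rw [map_pow, map_mul, h4, hΔ']
  have hcc' := congrArg (fun q : ℚ => f (C q)) hcc
  rw [ha, hb, hc]
  simp only [C_mul, C_add, C_pow, C_neg, map_mul, map_add, map_pow, map_neg] at hcc' ⊢
  have h32 : f (C (32 : ℚ)) = 32 := by
    rw [show (C (32 : ℚ) : ℚ[X]) = 32 from map_ofNat C 32, map_ofNat]
  rw [h32] at hcc'
  linear_combination (-16 * (u ^ 2 * f δ) ^ 6) * hcc'

end Pool.Agent.NJ.H24
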